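import Pool.Agent.T6.Lead.QrExists

/-!
# Dense graphs without quasiregular subgraphs

The construction is of the type introduced by Pyber, Rödl and Szemerédi for graphs without
`k`-regular subgraphs. There are `n = 2 ^ 2 ^ (a + t)` vertices `b` on one side and, for every
`j < t`, a level of `n / 2 ^ 2 ^ (a + j)` vertices on the other side; every `b` has exactly one
neighbour in every level. For a suitable (random) choice, a set of `s` vertices `b` has few
collisions in the levels that are much larger than `s`, while a subgraph with degrees between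
`k + 1` and `C k` can have only few edges in the levels that are much smaller than `s`.
-/

set_option autoImplicit false

namespace Pool.Agent.Results.MP_78fef3_co.NoQuasiregular

open Finset Pool.Agent.T6.Lead.Qr

/-- The subgraph `H` of `G` is `(k, C)`-quasiregular: it has at least one vertex and the degree
in `H` of every vertex `x` of `H` satisfies `k < d_H(x) < C k`. -/
def IsQuasiregular {V : Type} {G : SimpleGraph V} (k : ℕ) (C : ℝ) (H : G.Subgraph) : Prop :=
  H.verts.Nonempty ∧ ∀ x ∈ H.verts,
    (k : ℝ) < ((H.neighborSet x).ncard : ℝ) ∧ ((H.neighborSet x).ncard : ℝ) < C * k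

/-- The bipartite graph in which `b` is joined to the vertex `f j b` of level `j`, for all `j`. -/
def levelGraph {t n : ℕ} {N : Fin t → ℕ} (f : (j : Fin t) → Fin n → Fin (N j)) :
    SimpleGraph (Fin n ⊕ (Σ j : Fin t, Fin (N j))) where
  Adj x y := ∃ (b : Fin n) (j : Fin t),
    (x = Sum.inl b ∧ y = Sum.inr ⟨j, f j b⟩) ∨ (y = Sum.inl b ∧ x = Sum.inr ⟨j, f j b⟩)
  symm := ⟨by
    rintro x y ⟨b, j, h | h⟩
    · exact ⟨b, j, Or.inr h⟩
    · exact ⟨b, j, Or.inl h⟩⟩
  loopless := ⟨by
    rintro x ⟨b, j, ⟨h1, h2⟩ | ⟨h1, h2⟩⟩ <;> rw [h1] at h2 <;> cases h2⟩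

section

variable {t n : ℕ} {N : Fin t → ℕ} (f : (j : Fin t) → Fin n → Fin (N j))

lemma adj_inl {b : Fin n} {y : Fin n ⊕ (Σ j : Fin t, Fin (N j))}
    (h : (levelGraph f).Adj (Sum.inl b) y) : ∃ j, y = Sum.inr ⟨j, f j b⟩ := by
  obtain ⟨b', j, ⟨h1, h2⟩ | ⟨h1, h2⟩⟩ := h
  · cases h1
    exact ⟨j, h2⟩
  · cases h2

lemma adj_inr {j : Fin t} {c : Fin (N j)} {y : Fin n ⊕ (Σ j : Fin t, Fin (N j))}
    (h : (levelGraph f).Adj (Sum.inr ⟨j, c⟩) y) : ∃ b, y = Sum.inl b ∧ f j b = c := by
  obtain ⟨b', j', ⟨h1, h2⟩ | ⟨h1, h2⟩⟩ := h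
  · cases h1
  · cases h2
    exact ⟨b', h1, rfl⟩

lemma edges_ge : t * n ≤ (levelGraph f).edgeSet.ncard := by
  classical
  let e : Fin t × Fin n → Sym2 (Fin n ⊕ (Σ j : Fin t, Fin (N j))) := fun p =>
    s(Sum.inl p.2, Sum.inr ⟨p.1, f p.1 p.2⟩)
  have he : Function.Injective e := by
    rintro ⟨j, b⟩ ⟨j', b'⟩ h
    simp only [e, Sym2.eq_iff] at h
    rcases h with ⟨h1, h2⟩ | ⟨h1, h2⟩
    · cases h1
      have := Sum.inr.inj h2
      have hj : j = j' := congrArg Sigma.fst this
      subst hj
      rfl
    · cases h1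
  have hr : Set.range e ⊆ (levelGraph f).edgeSet := by
    rintro _ ⟨⟨j, b⟩, rfl⟩
    exact ⟨b, j, Or.inl ⟨rfl, rfl⟩⟩
  have h1 : (Set.range e).ncard = t * n := by
    rw [← Set.image_univ, Set.ncard_image_of_injective _ he, Set.ncard_univ]
    simp
  rw [← h1]
  exact Set.ncard_le_ncard hr (Set.toFinite _)

end

/-- The deterministic part: a function family with few collisions gives a graph without
quasiregular subgraphs. -/
lemma no_quasiregular {a t κ K k : ℕ} (hk : 8 ≤ k) (hκ : K * t ≤ 2 ^ κ)
    (f : (j : Fin t) → Fin (D a t) → Fin (L a t j))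
    (hf : ∀ m < t, ∀ B : Finset (Fin (D a t)),
      B.Nonempty → Cond a t κ m B.card → coll f m B < 6 * B.card)
    (H : (levelGraph f).Subgraph) (hne : H.verts.Nonempty)
    (hlow : ∀ x ∈ H.verts, k < (H.neighborSet x).ncard)
    (hup : ∀ x ∈ H.verts, (H.neighborSet x).ncard ≤ K) : False := by
  classical
  let B : Finset (Fin (D a t)) := univ.filter fun b => Sum.inl b ∈ H.verts
  let S : Fin t → Finset (Fin (D a t)) := fun j =>
    univ.filter fun b => H.Adj (Sum.inl b) (Sum.inr ⟨j, f j b⟩)
  have hSB : ∀ j, S j ⊆ B := by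
    intro j b hb
    simp only [S, mem_filter, mem_univ, true_and] at hb
    simp only [B, mem_filter, mem_univ, true_and]
    exact H.edge_vert hb
  -- degrees on the side of the `b`
  have hdeg1 : ∀ b ∈ B, k + 1 ≤ (univ.filter fun j => b ∈ S j).card := by
    intro b hb
    simp only [B, mem_filter, mem_univ, true_and] at hb
    have h1 := hlow _ hb
    have h2 : H.neighborSet (Sum.inl b) ⊆
        (((univ.filter fun j => b ∈ S j).image fun j =>
          (Sum.inr ⟨j, f j b⟩ : Fin (D a t) ⊕ (Σ j : Fin t, Fin (L a t j)))) : Set _) := by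
      intro y hy
      rw [SimpleGraph.Subgraph.mem_neighborSet] at hy
      obtain ⟨j, rfl⟩ := adj_inl f (H.adj_sub hy)
      simp only [coe_image, Set.mem_image, mem_coe, mem_filter, mem_univ, true_and, S]
      exact ⟨j, hy, rfl⟩
    have h3 := Set.ncard_le_ncard h2 (Finset.finite_toSet _)
    rw [Set.ncard_coe_finset] at h3
    have h4 := h3.trans card_image_le
    omega
  -- degrees on the side of the levels
  have hfib : ∀ j, ∀ b ∈ S j, k + 1 ≤ ((S j).filter fun b' => f j b' = f j b).card ∧
      ((S j).filter fun b' => f j b' = f j b).card ≤ K := by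
    intro j b hb
    have hb' : H.Adj (Sum.inl b) (Sum.inr ⟨j, f j b⟩) := by
      simpa [S] using hb
    have hv : (Sum.inr ⟨j, f j b⟩ : Fin (D a t) ⊕ (Σ j : Fin t, Fin (L a t j))) ∈ H.verts :=
      H.edge_vert hb'.symm
    have h2 : H.neighborSet (Sum.inr ⟨j, f j b⟩) =
        ((((S j).filter fun b' => f j b' = f j b).image fun b' =>
          (Sum.inl b' : Fin (D a t) ⊕ (Σ j : Fin t, Fin (L a t j)))) : Set _) := by
      ext y
      rw [SimpleGraph.Subgraph.mem_neighborSet]
      simp only [coe_image, Set.mem_image, mem_coe, mem_filter, mem_univ, true_and, S]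
      constructor
      · intro hy
        obtain ⟨b', rfl, hfb⟩ := adj_inr f (H.adj_sub hy)
        refine ⟨b', ⟨?_, hfb⟩, rfl⟩
        rw [hfb]
        exact hy.symm
      · rintro ⟨b', ⟨h3, h4⟩, rfl⟩
        rw [h4] at h3
        exact h3.symm
    have h3 : (H.neighborSet (Sum.inr ⟨j, f j b⟩)).ncard =
        ((S j).filter fun b' => f j b' = f j b).card := by
      rw [h2, Set.ncard_coe_finset, card_image_of_injective _ Sum.inl_injective]
    have h4 := hlow _ hv
    have h5 := hup _ hv
    omega
  have himg_low : ∀ j, (k + 1) * ((S j).image (f j)).card ≤ (S j).card := by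
    intro j
    rw [card_eq_sum_card_image (f j) (S j), mul_comm, ← smul_eq_mul, ← sum_const]
    refine sum_le_sum fun c hc => ?_
    obtain ⟨b, hb, rfl⟩ := mem_image.mp hc
    exact (hfib j b hb).1
  have himg_up : ∀ j, (S j).card ≤ K * L a t j := by
    intro j
    rw [card_eq_sum_card_image (f j) (S j)]
    calc ∑ c ∈ (S j).image (f j), ((S j).filter fun x => f j x = c).card
        ≤ ∑ c ∈ (S j).image (f j), K := by
          refine sum_le_sum fun c hc => ?_
          obtain ⟨b, hb, rfl⟩ := mem_image.mp hc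
          exact (hfib j b hb).2
      _ = ((S j).image (f j)).card * K := by rw [sum_const, smul_eq_mul]
      _ ≤ L a t j * K := by
          refine Nat.mul_le_mul_right _ ?_
          simpa using card_le_univ ((S j).image (f j))
      _ = K * L a t j := mul_comm _ _
  -- `B` is nonempty
  have hBne : B.Nonempty := by
    obtain ⟨x, hx⟩ := hne
    rcases x with b | ⟨j, c⟩
    · exact ⟨b, by simpa [B] using hx⟩
    · have h1 := hlow _ hx
      have h2 : (H.neighborSet (Sum.inr ⟨j, c⟩)).Nonempty := by
        rw [← Set.ncard_pos (Set.toFinite _)]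
        omega
      obtain ⟨y, hy⟩ := h2
      rw [SimpleGraph.Subgraph.mem_neighborSet] at hy
      obtain ⟨b, rfl, _⟩ := adj_inr f (H.adj_sub hy)
      exact ⟨b, by simpa [B] using H.edge_vert hy.symm⟩
  have hspos : 0 < B.card := hBne.card_pos
  -- number of edges
  have hedges : (k + 1) * B.card ≤ ∑ j, (S j).card := by
    have h1 : ∑ j, (S j).card = ∑ b ∈ B, (univ.filter fun j => b ∈ S j).card := by
      have h2 : ∀ j, (S j).card = ∑ b ∈ B, if b ∈ S j then 1 else 0 := by
        intro j
        rw [← sum_filter, sum_const, smul_eq_mul, mul_one, filter_mem_eq_inter,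
          inter_eq_right.mpr (hSB j)]
      simp_rw [h2]
      rw [sum_comm]
      refine sum_congr rfl fun b _ => ?_
      rw [← sum_filter, sum_const, smul_eq_mul, mul_one]
    rw [h1, mul_comm, ← smul_eq_mul, ← sum_const]
    exact sum_le_sum hdeg1
  -- small levels contain few edges
  let big : Finset (Fin t) := univ.filter fun j => B.card ≤ 2 ^ κ * L a t j
  have hsmall : ∀ T : Finset (Fin t), (∀ j ∈ T, j ∉ big) → ∑ j ∈ T, (S j).card ≤ B.card := by
    intro T hT
    rcases Nat.eq_zero_or_pos t with ht | ht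
    · subst ht
      have : T = ∅ := by
        ext j
        exact j.elim0
      rw [this]
      simp
    have h1 : ∀ j ∈ T, t * (S j).card ≤ B.card := by
      intro j hj
      have h2 : 2 ^ κ * L a t j < B.card := by
        have := hT j hj
        simpa [big] using this
      calc t * (S j).card ≤ t * (K * L a t j) := Nat.mul_le_mul_left _ (himg_up j)
        _ = K * t * L a t j := by ring
        _ ≤ 2 ^ κ * L a t j := Nat.mul_le_mul_right _ hκ
        _ ≤ B.card := h2.le
    have h2 : t * ∑ j ∈ T, (S j).card ≤ t * B.card := by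
      rw [mul_sum]
      calc ∑ j ∈ T, t * (S j).card ≤ ∑ j ∈ T, B.card := sum_le_sum h1
        _ = T.card * B.card := by rw [sum_const, smul_eq_mul]
        _ ≤ t * B.card := by
            refine Nat.mul_le_mul_right _ ?_
            simpa using card_le_univ T
    exact Nat.le_of_mul_le_mul_left h2 ht
  have hbig : big.Nonempty := by
    by_contra hcon
    rw [not_nonempty_iff_eq_empty] at hcon
    have h1 := hsmall univ (fun j _ => by rw [hcon]; exact notMem_empty j)
    nlinarith
  -- the last big level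
  let m := big.max' hbig
  have hm : m ∈ big := big.max'_mem hbig
  have hcond : Cond a t κ m B.card := by
    constructor
    · simpa [big] using hm
    · by_cases h1 : (m : ℕ) + 1 = t
      · exact Or.inl h1
      · right
        have h2 : (m : ℕ) + 1 < t := by have := m.2; omega
        have h3 : (⟨(m : ℕ) + 1, h2⟩ : Fin t) ∉ big := by
          intro h4
          have := big.le_max' _ h4
          have h5 : (m : ℕ) + 1 ≤ (m : ℕ) := by exact_mod_cast this
          omega
        have h4 : 2 ^ κ * L a t ((m : ℕ) + 1) < B.card := by simpa [big] using h3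
        calc L a t ((m : ℕ) + 1) ≤ 2 ^ κ * L a t ((m : ℕ) + 1) :=
              Nat.le_mul_of_pos_left _ (by positivity)
          _ ≤ B.card := h4.le
  have hlower : (k - 1) * B.card ≤ ∑ j ∈ lower t m, (S j).card := by
    have h1 : ∑ j, (S j).card = ∑ j ∈ lower t m, (S j).card + (S m).card +
        ∑ j ∈ univ.filter (fun j : Fin t => m < j), (S j).card := by
      have hun : (univ : Finset (Fin t)) = (lower t m ∪ {m}) ∪ univ.filter (fun j => m < j) := by
        ext j
        simp only [lower, mem_univ, mem_union, mem_filter, mem_singleton, true_and, true_iff]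
        rcases lt_trichotomy j m with h | h | h
        · exact Or.inl (Or.inl h)
        · exact Or.inl (Or.inr h)
        · exact Or.inr h
      have hd1 : Disjoint (lower t m ∪ {m}) (univ.filter (fun j : Fin t => m < j)) := by
        rw [Finset.disjoint_left]
        intro j hj hj'
        simp only [lower, mem_union, mem_filter, mem_univ, true_and, mem_singleton] at hj hj'
        have hj2 : (m : ℕ) < (j : ℕ) := hj'
        rcases hj with h | h
        · omega
        · rw [h] at hj2; omega
      have hd2 : Disjoint (lower t m) {m} := by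
        rw [Finset.disjoint_singleton_right]
        simp [lower]
      calc ∑ j, (S j).card
          = ∑ j ∈ (lower t m ∪ {m}) ∪ univ.filter (fun j => m < j), (S j).card := by rw [← hun]
        _ = _ := by rw [sum_union hd1, sum_union hd2, sum_singleton]
    have h2 := hsmall (univ.filter (fun j : Fin t => m < j)) (by
      intro j hj hjb
      have h3 := big.le_max' _ hjb
      have h4 : m < j := by simpa using hj
      exact absurd h3 (not_le.mpr h4))
    have h3 : (S m).card ≤ B.card := card_le_card (hSB m)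
    have h4 : (k + 1) * B.card = (k - 1) * B.card + B.card + B.card := by
      obtain ⟨k', rfl⟩ : ∃ k', k = k' + 1 := ⟨k - 1, by omega⟩
      simp only [Nat.add_sub_cancel]
      ring
    omega
  -- collisions
  have hcoll : ∀ j, k * (S j).card ≤ (k + 1) * (B.card - (B.image (f j)).card) := by
    intro j
    have h1 : (B.image (f j)).card ≤ ((S j).image (f j)).card + (B.card - (S j).card) := by
      have h2 : B.image (f j) ⊆ (S j).image (f j) ∪ (B \ S j).image (f j) := by
        rw [← image_union, union_sdiff_of_subset (hSB j)]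
      calc (B.image (f j)).card ≤ _ := card_le_card h2
        _ ≤ ((S j).image (f j)).card + ((B \ S j).image (f j)).card := card_union_le _ _
        _ ≤ ((S j).image (f j)).card + (B \ S j).card :=
            Nat.add_le_add_left card_image_le _
        _ = _ := by rw [card_sdiff_of_subset (hSB j)]
    have h3 := himg_low j
    have h4 : (S j).card ≤ B.card := card_le_card (hSB j)
    have h5 : ((S j).image (f j)).card ≤ (S j).card := card_image_le
    have h6 : (S j).card - ((S j).image (f j)).card ≤ B.card - (B.image (f j)).card := by omega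
    have h7 : k * (S j).card ≤ (k + 1) * ((S j).card - ((S j).image (f j)).card) := by
      rw [Nat.mul_sub]
      have : (k + 1) * (S j).card = k * (S j).card + (S j).card := by ring
      omega
    exact h7.trans (Nat.mul_le_mul_left _ h6)
  have hfinal : k * ((k - 1) * B.card) ≤ (k + 1) * coll f m B := by
    unfold coll
    calc k * ((k - 1) * B.card) ≤ k * ∑ j ∈ lower t m, (S j).card := Nat.mul_le_mul_left _ hlower
      _ = ∑ j ∈ lower t m, k * (S j).card := by rw [mul_sum]
      _ ≤ ∑ j ∈ lower t m, (k + 1) * (B.card - (B.image (f j)).card) :=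
          sum_le_sum fun j _ => hcoll j
      _ = _ := by rw [← mul_sum]
  have hlt := hf m m.2 B hBne hcond
  have h8 : 6 * (k + 1) ≤ k * (k - 1) := by
    obtain ⟨k', rfl⟩ : ∃ k', k = k' + 8 := ⟨k - 8, by omega⟩
    have : k' + 8 - 1 = k' + 7 := by omega
    rw [this]
    nlinarith
  have h9 : (k + 1) * coll f m B < (k + 1) * (6 * B.card) :=
    Nat.mul_lt_mul_of_pos_left hlt (by omega)
  have h10 : (k + 1) * (6 * B.card) ≤ k * ((k - 1) * B.card) := by
    calc (k + 1) * (6 * B.card) = 6 * (k + 1) * B.card := by ring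
      _ ≤ k * (k - 1) * B.card := Nat.mul_le_mul_right _ h8
      _ = _ := by ring
  omega

lemma sum_L_le (a t : ℕ) : ∑ j : Fin t, L a t j ≤ D a t := by
  have h1 : ∀ j : Fin t, (L a t j : ℝ) ≤ (D a t : ℝ) * (1 / 2) ^ ((j : ℕ) + 1) := by
    intro j
    have h2 := D_mul_L (a := a) (j := j) (t := t) j.2.le
    have h3 : 2 ^ ((j : ℕ) + 1) ≤ D a j := by
      unfold D
      refine Nat.pow_le_pow_right (by norm_num) ?_
      calc (j : ℕ) + 1 ≤ 2 ^ (j : ℕ) := Nat.lt_two_pow_self
        _ ≤ 2 ^ (a + j) := Nat.pow_le_pow_right (by norm_num) (by omega)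
    have h4 : 2 ^ ((j : ℕ) + 1) * L a t j ≤ D a t := by
      rw [← h2]; exact Nat.mul_le_mul_right _ h3
    have h5 : (2 : ℝ) ^ ((j : ℕ) + 1) * (L a t j : ℝ) ≤ (D a t : ℝ) := by exact_mod_cast h4
    rw [one_div, inv_pow, ← div_eq_mul_inv, le_div_iff₀ (by positivity)]
    linarith
  have h2 : ((∑ j : Fin t, L a t j : ℕ) : ℝ) ≤ (D a t : ℝ) := by
    push_cast
    calc ∑ j : Fin t, (L a t j : ℝ) ≤ ∑ j : Fin t, (D a t : ℝ) * (1 / 2) ^ ((j : ℕ) + 1) :=
          sum_le_sum fun j _ => h1 j
      _ = (D a t : ℝ) * ((1 / 2) * ∑ j ∈ range t, (1 / 2 : ℝ) ^ j) := by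
          rw [← Fin.sum_univ_eq_sum_range (fun j => (1 / 2 : ℝ) ^ j), mul_sum, mul_sum]
          refine sum_congr rfl fun j _ => ?_
          rw [pow_succ']
      _ ≤ (D a t : ℝ) * 1 := by
          refine mul_le_mul_of_nonneg_left ?_ (Nat.cast_nonneg _)
          rw [geom_sum_eq (by norm_num)]
          have : (0 : ℝ) < (1 / 2) ^ t := by positivity
          have h3 : ((1 / 2 : ℝ) ^ t - 1) / (1 / 2 - 1) = 2 * (1 - (1 / 2) ^ t) := by ring
          rw [h3]
          linarith
      _ = (D a t : ℝ) := mul_one _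
  exact_mod_cast h2

/-- For every `k ≥ 8` and all reals `C` and `F` there is a finite nonempty graph `G` with at least
`F |V(G)|` edges that has no `(k, C)`-quasiregular subgraph. -/
theorem result (k : ℕ) (hk : 8 ≤ k) (C F : ℝ) :
    ∃ (V : Type) (_ : Fintype V) (_ : Nonempty V) (G : SimpleGraph V),
      F * (Fintype.card V : ℝ) ≤ (G.edgeSet.ncard : ℝ) ∧
      ∀ H : G.Subgraph, ¬ IsQuasiregular k C H := by
  classical
  set t : ℕ := ⌈2 * F⌉₊ with ht
  set K : ℕ := ⌈C * k⌉₊ with hK
  set κ : ℕ := K * t with hκ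
  set a : ℕ := 6 * κ + 5 with ha
  obtain ⟨f, hf⟩ := exists_good a t κ (Nat.lt_two_pow_self (n := 6 * κ + 5)).le (by omega)
  refine ⟨Fin (D a t) ⊕ (Σ j : Fin t, Fin (L a t j)), inferInstance,
    ⟨Sum.inl ⟨0, D_pos a t⟩⟩, levelGraph f, ?_, ?_⟩
  · have h1 : (Fintype.card (Fin (D a t) ⊕ (Σ j : Fin t, Fin (L a t j))) : ℝ) ≤
        2 * (D a t : ℝ) := by
      have h2 : Fintype.card (Fin (D a t) ⊕ (Σ j : Fin t, Fin (L a t j))) ≤ 2 * D a t := by
        rw [Fintype.card_sum, Fintype.card_sigma]
        simp only [Fintype.card_fin]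
        have := sum_L_le a t
        omega
      exact_mod_cast h2
    have h2 : ((t * D a t : ℕ) : ℝ) ≤ ((levelGraph f).edgeSet.ncard : ℝ) := by
      exact_mod_cast edges_ge f
    push_cast at h2
    rcases le_or_gt F 0 with hF | hF
    · calc F * _ ≤ 0 := mul_nonpos_of_nonpos_of_nonneg hF (Nat.cast_nonneg _)
        _ ≤ _ := Nat.cast_nonneg _
    · have h3 : 2 * F ≤ (t : ℝ) := Nat.le_ceil _
      calc F * (Fintype.card (Fin (D a t) ⊕ (Σ j : Fin t, Fin (L a t j))) : ℝ)
          ≤ F * (2 * (D a t : ℝ)) := mul_le_mul_of_nonneg_left h1 hF.le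
        _ = 2 * F * (D a t : ℝ) := by ring
        _ ≤ (t : ℝ) * (D a t : ℝ) := mul_le_mul_of_nonneg_right h3 (Nat.cast_nonneg _)
        _ ≤ _ := h2
  · rintro H ⟨hne, hdeg⟩
    refine no_quasiregular (K := K) (κ := κ) hk (Nat.lt_two_pow_self (n := κ)).le f hf H hne
      (fun x hx => by exact_mod_cast (hdeg x hx).1) (fun x hx => ?_)
    have h1 : ((H.neighborSet x).ncard : ℝ) ≤ (K : ℝ) := (hdeg x hx).2.le.trans (Nat.le_ceil _)
    exact_mod_cast h1

end Pool.Agent.Results.MP_78fef3_co.NoQuasiregular
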